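import Pool.Agent.H749R3.Coarse2

set_option autoImplicit false

open Filter Topology

namespace Pool.Agent.Results.MP_a7957c_al.FullBoxSpaces

/-- The finite-index normal subgroups of the free group `F_k`. -/
abbrev FIN (k : ℕ) : Type := {N : Subgroup (FreeGroup (Fin k)) // N.Normal ∧ N.FiniteIndex}

/-- The underlying set of the full box space of `F_k`: the disjoint union of all the finite
quotients `F_k / N`. -/
abbrev BoxSp (k : ℕ) : Type := Σ N : FIN k, FreeGroup (Fin k) ⧸ N.1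

/-- The word metric of `F_k / N` with respect to the image of the basis: the least length of a
`g` in `F_k` with `y = x * gN`. -/
noncomputable def wordDist {k : ℕ} (N : FIN k) (x y : FreeGroup (Fin k) ⧸ N.1) : ℕ :=
  sInf {r | ∃ a g : FreeGroup (Fin k), (a : FreeGroup (Fin k) ⧸ N.1) = x ∧
    ((a * g : FreeGroup (Fin k)) : FreeGroup (Fin k) ⧸ N.1) = y ∧ g.toWord.length = r}

/-- `d` is a metric of the full box space of `F_k` (a coarse disjoint union of all the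
`F_k / N`): it is a metric, it restricts to the word metric on each piece, and for every `R` only
finitely many pairs of distinct pieces are at distance `≤ R`. -/
structure IsBoxMetric (k : ℕ) (d : BoxSp k → BoxSp k → ℝ) : Prop where
  self : ∀ p, d p p = 0
  eq : ∀ p q, d p q = 0 → p = q
  symm : ∀ p q, d p q = d q p
  triangle : ∀ p q r, d p r ≤ d p q + d q r
  word : ∀ (N : FIN k) (x y : FreeGroup (Fin k) ⧸ N.1), d ⟨N, x⟩ ⟨N, y⟩ = wordDist N x y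
  apart : ∀ R : ℝ, {P : FIN k × FIN k | P.1 ≠ P.2 ∧
    ∃ (x : FreeGroup (Fin k) ⧸ P.1.1) (y : FreeGroup (Fin k) ⧸ P.2.1),
      d ⟨P.1, x⟩ ⟨P.2, y⟩ ≤ R}.Finite

/-- `f` is a coarse equivalence from `(X, d)` to `(Y, d')`. -/
def IsCoarseEquiv {X Y : Type} (d : X → X → ℝ) (d' : Y → Y → ℝ) (f : X → Y) : Prop :=
  ∃ ρ ρ' : ℝ → ℝ, MonotoneOn ρ (Set.Ici 0) ∧ MonotoneOn ρ' (Set.Ici 0) ∧
    Tendsto ρ atTop atTop ∧
    (∀ x x', ρ (d x x') ≤ d' (f x) (f x') ∧ d' (f x) (f x') ≤ ρ' (d x x')) ∧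
    ∃ K : ℝ, ∀ y, ∃ x, d' (f x) y ≤ K

section aux
open H749.Box

/-- from representatives to points -/
def toB {k : ℕ} (p : XX k) : BoxSp k := ⟨p.1, (p.2 : FreeGroup (Fin k) ⧸ p.1.1)⟩

/-- from points to representatives -/
noncomputable def toX {k : ℕ} (p : BoxSp k) : XX k := (p.1, Quotient.out p.2)

theorem toB_toX {k : ℕ} (p : BoxSp k) : toB (toX p) = p := by
  obtain ⟨N, x⟩ := p
  show (⟨N, ((Quotient.out x : FreeGroup (Fin k)) : FreeGroup (Fin k) ⧸ N.1)⟩ : BoxSp k) = ⟨N, x⟩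
  congr 1
  exact Quotient.out_eq x

theorem wordDist_le_of_near {k : ℕ} (N : FIN k) {r : ℕ} {a b : FreeGroup (Fin k)}
    (h : nearN N.1 r a b) : wordDist N (a : FreeGroup (Fin k) ⧸ N.1) b ≤ r := by
  obtain ⟨g, h1, h2⟩ := h
  refine le_trans (Nat.sInf_le ?_) h2
  refine ⟨a, g, rfl, ?_, rfl⟩
  rw [QuotientGroup.eq, mul_inv_rev]
  exact h1

theorem near_of_wordDist_le {k : ℕ} (N : FIN k) {r : ℕ} {a b : FreeGroup (Fin k)}
    (h : wordDist N (a : FreeGroup (Fin k) ⧸ N.1) b ≤ r) : nearN N.1 r a b := by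
  have hN : N.1.Normal := N.2.1
  have hne : {r | ∃ a' g : FreeGroup (Fin k), (a' : FreeGroup (Fin k) ⧸ N.1) = a ∧
    ((a' * g : FreeGroup (Fin k)) : FreeGroup (Fin k) ⧸ N.1) = b ∧ g.toWord.length = r}.Nonempty :=
    ⟨_, a, a⁻¹ * b, rfl, by rw [mul_inv_cancel_left], rfl⟩
  obtain ⟨a', g, h1, h2, h3⟩ := Nat.sInf_mem hne
  refine ⟨g, ?_, ?_⟩
  · rw [QuotientGroup.eq] at h1 h2
    -- h1 : a'⁻¹ * a ∈ N, h2 : (a' * g)⁻¹ * b ∈ N
    have h4 : g⁻¹ * (a'⁻¹ * a)⁻¹ * g⁻¹⁻¹ ∈ N.1 := hN.conj_mem _ (N.1.inv_mem h1) g⁻¹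
    have h5 := N.1.mul_mem h4 h2
    have h6 : g⁻¹ * (a'⁻¹ * a)⁻¹ * g⁻¹⁻¹ * ((a' * g)⁻¹ * b) = g⁻¹ * a⁻¹ * b := by group
    rwa [h6] at h5
  · have h7 : g.toWord.length ≤ r := h3.le.trans h
    exact h7

/-- the index threshold -/
theorem exists_threshold {k : ℕ} {d : BoxSp k → BoxSp k → ℝ} (hd : IsBoxMetric k d) (R : ℝ) :
    ∃ T : ℕ, ∀ p q : BoxSp k, d p q ≤ R → (T < p.1.1.index ∨ T < q.1.1.index) → p.1 = q.1 := by
  have h1 := (hd.apart R).image (fun P => P.1.1.index + P.2.1.index)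
  obtain ⟨T, hT⟩ := h1.bddAbove
  refine ⟨T, ?_⟩
  rintro ⟨N, x⟩ ⟨N', y⟩ hpq hT'
  by_contra hne
  have h2 : N.1.index + N'.1.index ≤ T := hT ⟨(N, N'), ⟨hne, x, y, hpq⟩, rfl⟩
  have h3 : T < N.1.index ∨ T < N'.1.index := hT'
  omega

theorem close_of_le {k : ℕ} {d : BoxSp k → BoxSp k → ℝ} (hd : IsBoxMetric k d) {R : ℝ} {T L : ℕ}
    (hT : ∀ p q : BoxSp k, d p q ≤ R → (T < p.1.1.index ∨ T < q.1.1.index) → p.1 = q.1)
    (hL : R ≤ L) {p q : XX k} (h : d (toB p) (toB q) ≤ R) : close T L p q := by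
  refine ⟨fun h1 => hT _ _ h h1, ?_⟩
  obtain ⟨N, a⟩ := p
  obtain ⟨N', b⟩ := q
  intro h1
  have h1' : N = N' := h1
  subst h1'
  apply near_of_wordDist_le
  have h2 := hd.word N (a : FreeGroup (Fin k) ⧸ N.1) b
  have h3 : ((wordDist N (a : FreeGroup (Fin k) ⧸ N.1) b : ℕ) : ℝ) ≤ (L : ℝ) := by
    rw [← h2]; exact le_trans h hL
  exact_mod_cast h3

/-- The symmetric core statement. -/
theorem core {m n : ℕ} (hm : 2 ≤ m) (hnm : n < m)
    (dm : BoxSp m → BoxSp m → ℝ) (dn : BoxSp n → BoxSp n → ℝ) (hdm : IsBoxMetric m dm)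
    (hdn : IsBoxMetric n dn) (φ : BoxSp m → BoxSp n) (ψ : BoxSp n → BoxSp m) (R : ℝ)
    (A1 : ∀ p q, dm p q ≤ 1 → dn (φ p) (φ q) ≤ R)
    (A2 : ∀ p q, dn p q ≤ 1 → dm (ψ p) (ψ q) ≤ R)
    (A3 : ∀ p, dm (ψ (φ p)) p ≤ R)
    (A4 : ∀ q, dn (φ (ψ q)) q ≤ R) : False := by
  obtain ⟨T₁, hT₁⟩ := exists_threshold hdm R
  obtain ⟨T₂, hT₂⟩ := exists_threshold hdn R
  have hT₁' : ∀ p q : BoxSp m, dm p q ≤ R → (T₁ + T₂ < p.1.1.index ∨ T₁ + T₂ < q.1.1.index) →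
      p.1 = q.1 := fun p q h h1 => hT₁ p q h (by omega)
  have hT₂' : ∀ p q : BoxSp n, dn p q ≤ R → (T₁ + T₂ < p.1.1.index ∨ T₁ + T₂ < q.1.1.index) →
      p.1 = q.1 := fun p q h h1 => hT₂ p q h (by omega)
  have hL : R ≤ (⌈R⌉₊ : ℕ) := Nat.le_ceil R
  have nearm : ∀ (M : NSub m) x y, nearN M.1 1 x y → dm (toB (M, x)) (toB (M, y)) ≤ 1 := by
    intro M x y h
    have h1 := wordDist_le_of_near M h
    show dm ⟨M, _⟩ ⟨M, _⟩ ≤ 1
    rw [hdm.word]
    exact_mod_cast h1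
  have nearn : ∀ (M : NSub n) x y, nearN M.1 1 x y → dn (toB (M, x)) (toB (M, y)) ≤ 1 := by
    intro M x y h
    have h1 := wordDist_le_of_near M h
    show dn ⟨M, _⟩ ⟨M, _⟩ ≤ 1
    rw [hdn.word]
    exact_mod_cast h1
  refine no_coarse_lt2 hm hnm (fun p => toX (φ (toB p))) (fun q => toX (ψ (toB q))) (T₁ + T₂)
    ⌈R⌉₊ ?_ ?_ ?_ ?_
  · intro M x y h
    apply close_of_le hdn hT₂' hL
    rw [toB_toX, toB_toX]
    exact A1 _ _ (nearm M x y h)
  · intro M x y h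
    apply close_of_le hdm hT₁' hL
    rw [toB_toX, toB_toX]
    exact A2 _ _ (nearn M x y h)
  · intro p
    apply close_of_le hdm hT₁' hL
    rw [toB_toX, toB_toX]
    exact A3 _
  · intro q
    apply close_of_le hdn hT₂' hL
    rw [toB_toX, toB_toX]
    exact A4 _

theorem bound_of_tendsto {ρ : ℝ → ℝ} (hρ : Tendsto ρ atTop atTop) (K : ℝ) :
    ∃ T : ℝ, ∀ t, ρ t ≤ K → t ≤ T := by
  obtain ⟨T, hT⟩ := (hρ.eventually (eventually_gt_atTop K)).exists_forall_of_atTop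
  refine ⟨T, fun t ht => ?_⟩
  by_contra h
  push Not at h
  exact absurd ht (not_le.2 (hT t h.le))

end aux

/-- For all distinct `n, m ≥ 2` there is no coarse equivalence between the full box spaces of
the free groups of ranks `n` and `m`, whatever metrics are chosen on the coarse disjoint unions. -/
theorem result : ∀ n m : ℕ, 2 ≤ n → 2 ≤ m → n ≠ m →
    ∀ (d : BoxSp n → BoxSp n → ℝ) (d' : BoxSp m → BoxSp m → ℝ),
      IsBoxMetric n d → IsBoxMetric m d' →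
        ¬ ∃ f : BoxSp n → BoxSp m, IsCoarseEquiv d d' f := by
  intro n m hn hm hnm d d' hd hd'
  rintro ⟨f, ρ, ρ', hρ1, hρ'1, hρ2, hf, K, hK⟩
  choose h hh using hK
  obtain ⟨T, hT⟩ := bound_of_tendsto hρ2 (K + 1 + K)
  have hK0 : 0 ≤ K := by
    have h1 := hh (f ⟨⟨⊤, inferInstance, inferInstance⟩,
      ((1 : FreeGroup (Fin n)) : FreeGroup (Fin n) ⧸ (⊤ : Subgroup (FreeGroup (Fin n))))⟩)
    have h2 := hd'.triangle (f (h (f ⟨⟨⊤, inferInstance, inferInstance⟩,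
      ((1 : FreeGroup (Fin n)) : FreeGroup (Fin n) ⧸ (⊤ : Subgroup (FreeGroup (Fin n))))⟩)))
      (f ⟨⟨⊤, inferInstance, inferInstance⟩,
      ((1 : FreeGroup (Fin n)) : FreeGroup (Fin n) ⧸ (⊤ : Subgroup (FreeGroup (Fin n))))⟩)
      (f (h (f ⟨⟨⊤, inferInstance, inferInstance⟩,
      ((1 : FreeGroup (Fin n)) : FreeGroup (Fin n) ⧸ (⊤ : Subgroup (FreeGroup (Fin n))))⟩)))
    rw [hd'.self, hd'.symm (f ⟨⟨⊤, inferInstance, inferInstance⟩,
      ((1 : FreeGroup (Fin n)) : FreeGroup (Fin n) ⧸ (⊤ : Subgroup (FreeGroup (Fin n))))⟩)] at h2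
    linarith
  have hnn : ∀ p q, 0 ≤ d p q := by
    intro p q
    have h1 := hd.triangle p q p
    rw [hd.self, hd.symm q p] at h1
    linarith
  set R := |ρ' 1| + |T| + K with hR
  have hRT : T ≤ R := by
    have := le_abs_self T
    have := abs_nonneg (ρ' 1)
    linarith
  have hRK : K ≤ R := by
    have := abs_nonneg T
    have := abs_nonneg (ρ' 1)
    linarith
  have hRρ : ρ' 1 ≤ R := by
    have := abs_nonneg T
    have := le_abs_self (ρ' 1)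
    linarith
  have B1 : ∀ p q, d p q ≤ 1 → d' (f p) (f q) ≤ R := by
    intro p q hpq
    have h1 := (hf p q).2
    have h2 : ρ' (d p q) ≤ ρ' 1 := hρ'1 (hnn p q) (by norm_num) hpq
    linarith
  have B2 : ∀ p q, d' p q ≤ 1 → d (h p) (h q) ≤ R := by
    intro p q hpq
    refine le_trans (hT _ ?_) hRT
    have h1 := (hf (h p) (h q)).1
    have h2 := hd'.triangle (f (h p)) p (f (h q))
    have h3 := hd'.triangle p q (f (h q))
    have h4 := hh p
    have h5 := hh q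
    rw [hd'.symm] at h5
    linarith
  have B3 : ∀ p, d (h (f p)) p ≤ R := by
    intro p
    refine le_trans (hT _ ?_) hRT
    have h1 := (hf (h (f p)) p).1
    have h2 := hh (f p)
    linarith
  have B4 : ∀ q, d' (f (h q)) q ≤ R := fun q => (hh q).trans hRK
  rcases lt_or_gt_of_ne hnm with hlt | hlt
  · exact core hm hlt d' d hd' hd h f R B2 B1 B4 B3
  · exact core hn hlt d d' hd hd' f h R B1 B2 B3 B4

end Pool.Agent.Results.MP_a7957c_al.FullBoxSpaces
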